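import Pool.Agent.SGD.Stmts
import Pool.Agent.Helper56_SGP.CTR
import Pool.Agent.Helper17_SGP.RMV
import Pool.Agent.Helper81_SGP.Cone
import Pool.Agent.Helper17_SGY.MAP

/-! SGD, row CCR: the corner `c` is replaced by an inner vertex. -/

set_option autoImplicit false

namespace Pool.Agent.SGD.H34

open Pool.Agent.SGE Pool.Agent.SGP Pool.Agent.SGY

theorem ccr : CcrStmt := by
  intro V _ _ a b c E F N hI
  obtain ⟨E₀, F₀, P, p, v, q, mid, Q, h⟩ :=
    Pool.Agent.SGP.H56.ctr Pool.Agent.SGP.H17.rmv Pool.Agent.SGP.H81.con N hI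
  have hnd := h.nt.nd
  have hac : a ≠ c := by
    intro h1
    rw [List.nodup_cons] at hnd
    exact hnd.1 (by rw [h1]; exact List.mem_cons_self)
  have hbc : b ≠ c := by
    intro h1
    rw [List.nodup_cons, List.nodup_cons] at hnd
    exact hnd.2.1 (by rw [h1]; exact List.mem_cons_self)
  have hM := Pool.Agent.SGY.H17.map h.nt (Equiv.swap c v)
  rw [Equiv.swap_apply_of_ne_of_ne hac h.va.symm, Equiv.swap_apply_of_ne_of_ne hbc h.vb.symm,
    Equiv.symm_swap, List.map_cons, List.map_cons, List.map_cons, List.map_nil,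
    Equiv.swap_apply_of_ne_of_ne hac h.va.symm, Equiv.swap_apply_of_ne_of_ne hbc h.vb.symm,
    Equiv.swap_apply_left] at hM
  refine ⟨v, ⟨h.va, h.vb, h.vc, (h.rel v).2 (Or.inl rfl)⟩, _, _, hM, ?_, ?_, ?_⟩
  · intro x hx
    rw [Equiv.swap_apply_left] at hx
    exact h.iso _ hx
  · have key : ∀ y, y ≠ c → E v y → y ≠ v → E₀ c y := by
      intro y hy hE hyv
      rw [h.nc']
      rcases (h.nv y).1 hE with h1 | h1
      · exact absurd h1 hy
      · rw [List.mem_cons, List.mem_append, List.mem_singleton] at h1
        rw [List.mem_append, List.mem_cons, List.mem_append, List.mem_cons]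
        tauto
    intro x y hx hy hE
    show E₀ (Equiv.swap c v x) (Equiv.swap c v y)
    by_cases hxv : x = v
    · have hyv : y ≠ v := by
        intro h1
        rw [hxv, h1] at hE
        exact N.irr _ hE
      rw [hxv, Equiv.swap_apply_right, Equiv.swap_apply_of_ne_of_ne hy hyv]
      rw [hxv] at hE
      exact key y hy hE hyv
    · by_cases hyv : y = v
      · rw [hyv, Equiv.swap_apply_right, Equiv.swap_apply_of_ne_of_ne hx hxv]
        rw [hyv] at hE
        exact h.nt.sym _ _ (key x hx (N.sym _ _ hE) hxv)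
      · rw [Equiv.swap_apply_of_ne_of_ne hx hxv, Equiv.swap_apply_of_ne_of_ne hy hyv]
        exact h.sub x y hE hxv hyv
  · intro x
    have h0 : Rel (fun x y => E₀ (Equiv.swap c v x) (Equiv.swap c v y)) x ↔
        Rel E₀ (Equiv.swap c v x) := by
      constructor
      · rintro ⟨y, hy⟩
        exact ⟨_, hy⟩
      · rintro ⟨y, hy⟩
        refine ⟨Equiv.swap c v y, ?_⟩
        show E₀ (Equiv.swap c v x) (Equiv.swap c v (Equiv.swap c v y))
        rw [Equiv.swap_apply_self]
        exact hy
    rw [h0]
    by_cases hxc : x = c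
    · rw [hxc, Equiv.swap_apply_left]
      constructor
      · rintro ⟨y, hy⟩
        exact absurd hy (h.iso y)
      · intro h1
        exact absurd rfl h1.1
    · by_cases hxv : x = v
      · rw [hxv, Equiv.swap_apply_right]
        constructor
        · intro _
          exact ⟨h.vc, (h.rel v).2 (Or.inl rfl)⟩
        · intro _
          exact Pool.Agent.SGP.H56.contour_nb h.nt
            (List.mem_cons_of_mem a List.mem_cons_self)
      · rw [Equiv.swap_apply_of_ne_of_ne hxc hxv]
        constructor
        · intro h1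
          exact ⟨hxc, (h.rel x).2 (Or.inr h1)⟩
        · intro h1
          rcases (h.rel x).1 h1.2 with h2 | h2
          · exact absurd h2 hxv
          · exact h2

end Pool.Agent.SGD.H34
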